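import Pool.Agent.H66.PwLSpace

/-!
# MP_8b81fd_gt, Q1: the inequality `|X| ≤ 2 ^ (pwL(X) * χ(X))` fails for Hausdorff spaces

We prove in ZFC that there is a first countable Hausdorff space `X` with countable piecewise weak
Lindelof number and `|X| > 2 ^ ℵ₀`.
-/

open Cardinal Pool.Agent.H66

namespace Pool.Agent.Results.MP_8b81fd_gt.HausdorffCounterexample

universe u

/-- The base set of the space: all functions from `(ℕ → ℕ)` to `ℕ`, of cardinality `2 ^ 2 ^ ℵ₀`
(lifted to the universe `u`). -/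
abbrev Base : Type u := (ULift.{u} ℕ → ℕ) → ℕ

theorem nm_base : NM ℵ₀ Base.{u} :=
  NM.fun le_rfl (NM.fun le_rfl (NM.of_card_le (by simp)))

theorem card_base : (2 : Cardinal.{u}) ^ (ℵ₀ : Cardinal.{u}) < #Base.{u} := by
  have h1 : #(ULift.{u} ℕ → ℕ) = (2 : Cardinal.{u}) ^ (ℵ₀ : Cardinal.{u}) := by
    simp
  have h2 : #Base.{u} = (2 : Cardinal.{u}) ^ #(ULift.{u} ℕ → ℕ) := by
    have h : #Base.{u} = ℵ₀ ^ #(ULift.{u} ℕ → ℕ) := by
      simp [Base]
    rw [h]
    refine Cardinal.power_eq_two_power ?_ ?_ ?_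
    · rw [h1]
      exact (Cardinal.cantor _).le
    · exact (Cardinal.natCast_lt_aleph0 (n := 2)).le
    · rw [h1]
      exact (Cardinal.cantor _).le
  rw [h2, ← h1]
  exact Cardinal.cantor _

/-- **The Hausdorff version of the inequality fails.** There is a Hausdorff first countable space
`X` with `pwL(X) = ℵ₀`, `χ(X) = ℵ₀` and `|X| > 2 ^ (pwL(X) * χ(X))`. -/
theorem result : ∃ (X : Type u) (_ : TopologicalSpace X), T2Space X ∧
    pwL X = ℵ₀ ∧ character X = ℵ₀ ∧ (2 : Cardinal.{u}) ^ (pwL X * character X) < #X := by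
  have h1 : pwL (Sp Base.{u}) = ℵ₀ :=
    le_antisymm (pwL_Sp_le le_rfl nm_base) (aleph0_le_pwL _)
  refine ⟨Sp Base.{u}, inferInstance, inferInstance, h1, character_Sp, ?_⟩
  rw [h1, character_Sp, Cardinal.aleph0_mul_aleph0]
  exact card_base.trans_le le_card_Sp

end Pool.Agent.Results.MP_8b81fd_gt.HausdorffCounterexample
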