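import Pool.Agent.H66.PwLBound

/-!
# MP_8b81fd_gt: the exact cardinality bound in terms of `pwL * χ` for Hausdorff spaces

For an infinite cardinal `κ`, the cardinalities of Hausdorff spaces `X` with `pwL(X) * χ(X) ≤ κ`
are cofinal exactly in the cardinals that carry no nonprincipal `κ⁺`-complete ultrafilter, i.e. the
cardinals below the first measurable cardinal above `κ`.
-/

open Cardinal Filter Pool.Agent.H66

namespace Pool.Agent.Results.MP_8b81fd_gt.SharpThreshold

universe u

/-- **Exact bound.** For every infinite cardinal `κ` and every set `Λ`, there is a Hausdorff space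
`X` with `pwL(X) * χ(X) ≤ κ` and `|Λ| ≤ |X|` if and only if every `κ⁺`-complete ultrafilter on `Λ`
is principal. -/
theorem result (κ : Cardinal.{u}) (hκ : ℵ₀ ≤ κ) (Λ : Type u) :
    (∃ (X : Type u) (_ : TopologicalSpace X), T2Space X ∧ pwL X * character X ≤ κ ∧ #Λ ≤ #X) ↔
      ∀ U : Ultrafilter Λ, CardinalInterFilter (U : Filter Λ) (Order.succ κ) →
        ∃ a, U = pure a := by
  have hNM : NM κ Λ ↔ ∀ U : Ultrafilter Λ,
      CardinalInterFilter (U : Filter Λ) (Order.succ κ) → ∃ a, U = pure a := by
    simp only [eq_pure_iff]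
    rfl
  rw [← hNM]
  constructor
  · rintro ⟨X, tX, hT2, hle, hcard⟩
    have h1 : pwL X ≤ κ :=
      (Cardinal.le_mul_right (aleph0_pos.trans_le (le_max_left _ _)).ne').trans hle
    have h2 : character X ≤ κ :=
      (Cardinal.le_mul_left (aleph0_pos.trans_le (aleph0_le_pwL X)).ne').trans hle
    have hX : NM κ X := NM.of_pwL hκ ((pwLProp_pwL X).mono h1)
      (fun x => (charAt_le_character x).trans h2)
    obtain ⟨e⟩ := Cardinal.le_def _ _ |>.1 hcard
    exact NM.of_injective hX e e.injective
  · intro h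
    refine ⟨Sp Λ, inferInstance, inferInstance, ?_, le_card_Sp⟩
    rw [character_Sp]
    calc pwL (Sp Λ) * ℵ₀ ≤ κ * κ := mul_le_mul' (pwL_Sp_le hκ h) hκ
      _ = κ := Cardinal.mul_eq_self hκ

end Pool.Agent.Results.MP_8b81fd_gt.SharpThreshold
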